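import Pool.Agent.Helper78.NE.Square

/-!
# Negative p-energy of connected graphs versus the complete graph: the full range p ≥ 2

For every real `p ≥ 2` and every connected finite simple graph `G`, the negative `p`-energy of `G`
is at least the negative `p`-energy of the complete graph on the same vertex set, which equals
the number of vertices minus one. The case `p = 2` is the negative half of the conjecture of
Elphick, Farber, Goldberg and Wocjan.

Outline of the proof (files `Corr`, `CorrInd`, `Square` in `Pool/Agent/Helper78/NE`):
for a positive semidefinite matrix `W` with unit diagonal and nonpositive entries on the edges,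
the negative square energy is at least the sum of `-W u v / (1 - W u v)` over the ordered pairs of
adjacent vertices (Schur product with the square of the negative part of the adjacency matrix).
By induction on the number of vertices every connected graph has such a `W` for which this
sum is at least `n - 1`: glue Gram vectors at a cut vertex, and average over the vertex deleted
subgraphs otherwise.
-/

namespace Pool.Agent.Results.MP_aaf0ed_co.NegativeEnergyFull

universe u

open Classical in
/-- The negative p-energy of a finite simple graph: the sum of the p-th powers of the absolute
values of the negative eigenvalues (with multiplicity) of its adjacency matrix. -/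
noncomputable def negEnergy {V : Type u} [Fintype V] (p : ℝ) (G : SimpleGraph V) : ℝ :=
  ∑ i, if (G.isHermitian_adjMatrix ℝ).eigenvalues i < 0
    then |(G.isHermitian_adjMatrix ℝ).eigenvalues i| ^ p else 0

theorem result {V : Type u} [Fintype V] (G : SimpleGraph V) (hG : G.Connected)
    (p : ℝ) (hp : 2 ≤ p) :
    negEnergy p (⊤ : SimpleGraph V) ≤ negEnergy p G ∧
      negEnergy p (⊤ : SimpleGraph V) = (Fintype.card V : ℝ) - 1 := by
  have hne : Nonempty V := hG.nonempty
  have h1 : negEnergy p (⊤ : SimpleGraph V) = (Fintype.card V : ℝ) - 1 := H78NE.negEnergy_top p
  refine ⟨?_, h1⟩
  rw [h1]
  classical
  exact H78NE.negEnergy_ge_two G hG hp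

end Pool.Agent.Results.MP_aaf0ed_co.NegativeEnergyFull
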