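import Pool.Agent.Helper78.NE.Square

/-!
# Positive p-energy of connected graphs, p ≥ 2

For every real `p ≥ 2` and every connected finite simple graph `G`, the positive `p`-energy of `G`
is at least the number of vertices minus one. The case `p = 2` is the positive half of the
conjecture of Elphick, Farber, Goldberg and Wocjan.
-/

namespace Pool.Agent.Results.MP_aaf0ed_co.PositiveEnergy

universe u

open Classical in
/-- The positive p-energy of a finite simple graph: the sum of the p-th powers of the
positive eigenvalues (with multiplicity) of its adjacency matrix. -/
noncomputable def posEnergy {V : Type u} [Fintype V] (p : ℝ) (G : SimpleGraph V) : ℝ :=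
  ∑ i, if 0 < (G.isHermitian_adjMatrix ℝ).eigenvalues i
    then (G.isHermitian_adjMatrix ℝ).eigenvalues i ^ p else 0

theorem result {V : Type u} [Fintype V] (G : SimpleGraph V) (hG : G.Connected)
    (p : ℝ) (hp : 2 ≤ p) :
    (Fintype.card V : ℝ) - 1 ≤ posEnergy p G := by
  classical
  exact H78NE.posEnergy_ge_two G hG hp

end Pool.Agent.Results.MP_aaf0ed_co.PositiveEnergy
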